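import Pool.Agent.Run7.h342.FIN2

/-!
# Cartier indices at quotient singularities of Calabi-Yau varieties

`X` and `Y` are birational proper normal varieties with `ℚ`-trivial canonical class, `T` is a
nowhere vanishing pluricanonical form of weight `T.m` on `X`, `X` is `1/p`-log canonical, and no
prime divisor of `Y` has negative discrepancy over `X` (this is automatic if `X` is canonical). The
Cartier indices at the quotient singularities of `Y` are bounded in terms of `T.m`, `p`, the rank of
the class group of `X` modulo `P`, and the number of exceptional divisors over `X` of nonpositive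
discrepancy.
-/

set_option autoImplicit false

namespace Pool.Agent.Results.MP_d27a3e_ag.CrepantQuotient

open Run7.h342

theorem _root_.Pool.Agent.Results.MP_d27a3e_ag.CrepantQuotient.result (k K : Type) [Field k]
    [IsAlgClosed k] [CharZero k] [Field K] [Algebra k K] (d p ρ s : ℕ)
    (htr : Algebra.trdeg k K = d) (X Y : Model k K)
    (T : Triv X d) (hlc : T.IsLC p) (hs : T.NonPos.encard ≤ s)
    (hY : Y.KTrivial d) (hYX : ∀ v ∈ Y.Div, ∃ q : ℚ, T.HasDiscr v q ∧ 0 ≤ q)
    (P : AddSubgroup (DVal k K → ℤ)) (hP : Y.IsNeg d P)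
    (hρ : Module.rank ℤ (X.Cl P) ≤ ρ) :
    (∀ y : Y.X, IsQuotSing (k := k) d (Y.loc y) → ∀ D : Y.Div →₀ ℤ,
      (∃ n : ℕ, 0 < n ∧ Y.CartierAt (n • D) y) →
        Y.CartierAt ((T.m * (Finset.Icc 1 (2 * p * (ρ + s - 1) + 1)).lcm id) • D) y) ∧
    ((∀ y : Y.X, IsClosed {y} → IsQuotSing (k := k) d (Y.loc y)) →
      ∃ N, Y.IsTotalCartierIndex N ∧
        N ∣ T.m * (Finset.Icc 1 (2 * p * (ρ + s - 1) + 1)).lcm id) :=
  ⟨fun y hy D hD => local_index htr T hlc hY hYX P hP hρ hs y hy D hD,
    fun hy => total_index htr T hlc hY hYX P hP hρ hs hy⟩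

end Pool.Agent.Results.MP_d27a3e_ag.CrepantQuotient
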